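import Mathlib
import Pool.Agent.Helper91.SymD.Main

/-!
# MP_75fc3b_ag: height two ideals in `m + 3` variables with prescribed symbolic depth function

For every field `k` and every positive, asymptotically periodic function `φ` with maximum `m` there
is a homogeneous ideal `Q` of height two in the polynomial ring in `m + 3` variables over `k` such
that `S / Q^(t)` has depth `φ t` for every `t ≥ 1`.
-/

set_option autoImplicit false

universe u

open MvPolynomial

namespace Pool.Agent.Results.MP_75fc3b_ag.SymbolicDepthFunctions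

/-- The `t`-th symbolic power `⋂_{P ∈ Min Q} (Q^t R_P ∩ R)` of the ideal `Q`. -/
noncomputable def symbolicPower {R : Type u} [CommRing R] (Q : Ideal R) (t : ℕ) : Ideal R :=
  ⨅ P : Q.minimalPrimes,
    haveI : P.1.IsPrime := P.2.1.1
    ((Q ^ t).map (algebraMap R (Localization.AtPrime P.1))).comap
      (algebraMap R (Localization.AtPrime P.1))

/-- The depth of the module `M` with respect to the ideal `I` is `d`: the largest length of an
`M`-regular sequence whose entries lie in `I` is `d`. -/
def HasDepth {R : Type u} [CommRing R] (I : Ideal R) (M : Type u) [AddCommGroup M] [Module R M]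
    (d : ℕ) : Prop :=
  IsGreatest {n : ℕ | ∃ rs : List R, rs.length = n ∧ (∀ r ∈ rs, r ∈ I) ∧
    RingTheory.Sequence.IsRegular M rs} d

/-- Full positive answer to Q1, over every field: every positive asymptotically periodic function
with maximum `m` is the symbolic depth function of a homogeneous ideal of height two in the
polynomial ring in `m + 3` variables. -/
theorem result (k : Type u) [Field k] (φ : ℕ → ℕ) (hpos : ∀ t, 1 ≤ t → 1 ≤ φ t)
    (hper : ∃ t₀ p : ℕ, 1 ≤ t₀ ∧ 1 ≤ p ∧ ∀ t, t₀ ≤ t → φ (t + p) = φ t)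
    (m : ℕ) (hm : IsGreatest {d : ℕ | ∃ t, 1 ≤ t ∧ φ t = d} m) :
    ∃ Q : Ideal (MvPolynomial (Fin (m + 3)) k),
      (∀ f ∈ Q, ∀ n : ℕ, homogeneousComponent n f ∈ Q) ∧
      Q.height = 2 ∧
      ∀ t, 1 ≤ t → HasDepth (Ideal.span (Set.range (X : Fin (m + 3) → MvPolynomial (Fin (m + 3)) k)))
        (MvPolynomial (Fin (m + 3)) k ⧸ symbolicPower Q t) (φ t) := by
  obtain ⟨t₀, p, ht₀, hp, hper⟩ := hper
  obtain ⟨Q, h1, h2, h3⟩ := Pool.Agent.Helper91.SymD.exists_ideal k φ hpos t₀ p ht₀ hp hper m hm
  exact ⟨Q, fun f hf n => homogeneousComponent_mem_of_mem h1 hf n, h2, h3⟩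

end Pool.Agent.Results.MP_75fc3b_ag.SymbolicDepthFunctions
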